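import Pool.Agent.Helper23.GR.St.Z

/-!
# MP_5a85b5_lc: an absolute girth bound

There are an absolute number `g` and one Borel 3-regular forest such that no finite graph of girth
at least `g` receives a Borel homomorphism from it, not even almost everywhere.
-/

namespace Pool.Agent.Results.MP_5a85b5_lc.AbsoluteGirth

open MeasureTheory

/-- There are a number `g` and a standard Borel space `X` with a probability measure `μ` and three
`μ`-preserving maps `t 0, t 1, t 2` whose graph `G` (joining `x` to `t i x`) has a Borel edge set,
is acyclic and 3-regular, such that for every finite simple graph `H` without cycles of length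
less than `g` and every map `f : X → V(H)` with Borel colour classes, `f` is not a homomorphism
from `G` to `H`, not even at almost all points. -/
theorem result :
    ∃ (g : ℕ) (X : Type) (_ : MeasurableSpace X) (_ : StandardBorelSpace X) (μ : Measure X)
      (_ : IsProbabilityMeasure μ) (t : Fin 3 → X → X) (G : SimpleGraph X),
      (∀ i, MeasurePreserving (t i) μ μ) ∧ (∀ x y, G.Adj x y ↔ ∃ i, t i x = y) ∧
      MeasurableSet {z : X × X | G.Adj z.1 z.2} ∧ G.IsAcyclic ∧
      (∀ x, (G.neighborSet x).ncard = 3) ∧
      ∀ (V : Type) [Finite V] (H : SimpleGraph V), (g : ℕ∞) ≤ H.egirth →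
        ∀ f : X → V, (∀ v, MeasurableSet (f ⁻¹' {v})) →
          ¬ ∀ᵐ x ∂μ, ∀ y, G.Adj x y → H.Adj (f x) (f y) :=
  Pool.Agent.Helper23.GR.main

end Pool.Agent.Results.MP_5a85b5_lc.AbsoluteGirth
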