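import Pool.Agent.Helper70.KF.Bor

/-!
# MP_5a85b5_lc: targets whose 4-cycles are confined to a discrete exceptional set

For all `R` and `g` there are a finite graph `H` and an independent set `I` of vertices of `H` such
that `H` has no closed walk of odd length at most `g`, every 4-cycle of `H` has two opposite
vertices in `I`, `H` has no `K_{3,3}`, and every Borel 3-regular forest has a Borel homomorphism
`f` to `H` for which the vertices with `f x ∈ I` have pairwise distances larger than `R`.
-/

set_option autoImplicit false

namespace Pool.Agent.Results.MP_5a85b5_lc.DiscreteExceptions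

open Pool.Agent.Helper70.KF

theorem no_four {X : Type} {G : SimpleGraph X} (h : G.IsAcyclic) (a b c d : X)
    (hab : G.Adj a b) (hbc : G.Adj b c) (hcd : G.Adj c d) (hda : G.Adj d a) (hac : a ≠ c) :
    b = d := by
  have hp : (SimpleGraph.Walk.cons hab (.cons hbc .nil)).IsPath := by
    simp [SimpleGraph.Walk.cons_isPath_iff, hab.ne, hbc.ne, hac]
  have hq : (SimpleGraph.Walk.cons hda.symm (.cons hcd.symm .nil)).IsPath := by
    simp [SimpleGraph.Walk.cons_isPath_iff, hda.ne.symm, hcd.ne.symm, hac]
  have h1 := (h.subsingleton_path a c).elim ⟨_, hp⟩ ⟨_, hq⟩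
  have h2 := congrArg (fun p : G.Path a c => p.1.support) h1
  simpa using h2

theorem even_loops {X : Type} {G : SimpleGraph X} (h : G.IsAcyclic) (x : X) (p : G.Walk x x) :
    Even p.length :=
  SimpleGraph.two_colorable_iff_forall_loop_even.1 h.colorable_two x p

/-- For all `R` and `g` there are a finite graph `H` and a set `I` of vertices of `H` such that
`H` has no closed walk of odd length at most `g`, every 4-cycle of `H` has two opposite vertices
in `I`, no three vertices of `H` have three common neighbours, no two vertices of `I` are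
adjacent, and the following holds for every Borel 3-regular graph `G` on a standard Borel space
which is acyclic, or only has no 4-cycle and no closed walk of odd length at most `g`: for every
Borel set `M` of vertices which meets all balls of radius `R` there is a Borel homomorphism from
`G` to `H` which maps only vertices of `M` to `I` and for which any two different vertices that
are mapped to `I` have distance larger than `R`. -/
theorem result (R g : ℕ) :
    ∃ (V : Type) (_ : Finite V) (H : SimpleGraph V) (I : Set V),
      (∀ (v : V) (p : H.Walk v v), p.length ≤ g → Even p.length) ∧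
      (∀ a b c d, H.Adj a b → H.Adj b c → H.Adj c d → H.Adj d a → a ≠ c → b ≠ d →
        (a ∈ I ∧ c ∈ I) ∨ (b ∈ I ∧ d ∈ I)) ∧
      (∀ a b : Fin 3 → V, Function.Injective a → Function.Injective b →
        ¬ ∀ i j, H.Adj (a i) (b j)) ∧
      (∀ a ∈ I, ∀ b ∈ I, ¬ H.Adj a b) ∧
      ∀ (X : Type) [MeasurableSpace X] [StandardBorelSpace X] (G : SimpleGraph X),
        MeasurableSet {z : X × X | G.Adj z.1 z.2} → (∀ x, (G.neighborSet x).ncard = 3) →
        (G.IsAcyclic ∨
          ((∀ a b c d, G.Adj a b → G.Adj b c → G.Adj c d → G.Adj d a → a ≠ c → b = d) ∧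
            ∀ (x : X) (p : G.Walk x x), p.length ≤ g → Even p.length)) →
        ∀ M : Set X, MeasurableSet M → (∀ x, ∃ y ∈ M, ∃ p : G.Walk x y, p.length ≤ R) →
          ∃ f : X → V, (∀ v, MeasurableSet (f ⁻¹' {v})) ∧
            (∀ x y, G.Adj x y → H.Adj (f x) (f y)) ∧ (∀ x, f x ∈ I → x ∈ M) ∧
            ∀ x y, f x ∈ I → f y ∈ I → x ≠ y → ∀ p : G.Walk x y, R < p.length := by
  obtain ⟨r, hr⟩ : ∃ r, r = max g 2 := ⟨_, rfl⟩
  have hr2 : 2 ≤ r := by omega
  have hrg : g ≤ r := by omega
  refine ⟨Vt (4 ^ (r + 4) + 1) (5 * (R + R) + 4) r, finite_Vt _ _ _, Hg _ _ _, Ex _ _ _,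
    fun v p hp => no_odd v p (hp.trans hrg), fun a b c d h1 h2 h3 h4 h5 h6 =>
      four_cycle hr2 h1 h2 h3 h4 h5 h6, fun a b ha hb => no_k33 hr2 a b ha hb,
    fun a ha b hb h => ex_indep hr2 h ha hb, ?_⟩
  intro X _ _ G hG h3 hor M hM hM2
  obtain ⟨h4, he⟩ : (∀ a b c d, G.Adj a b → G.Adj b c → G.Adj c d → G.Adj d a → a ≠ c → b = d) ∧
      ∀ (x : X) (p : G.Walk x x), p.length ≤ r → Even p.length := by
    rcases hor with h | ⟨h4, he⟩
    · exact ⟨no_four h, fun x p _ => even_loops h x p⟩
    · refine ⟨h4, fun x p hp => ?_⟩
      rcases le_or_gt p.length g with h5 | h5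
      · exact he x p h5
      · -- closed walks of length at most 2
        cases p with
        | nil => exact ⟨0, rfl⟩
        | cons h q =>
          cases q with
          | nil => exact absurd h (G.loopless.irrefl _)
          | cons h' q' =>
            rw [SimpleGraph.Walk.length_cons, SimpleGraph.Walk.length_cons] at hp h5 ⊢
            have h6 : q'.length = 0 := by omega
            rw [h6]
            exact ⟨1, rfl⟩
  exact main G hG h3 r R hr2 h4 he M hM hM2

end Pool.Agent.Results.MP_5a85b5_lc.DiscreteExceptions
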