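import Pool.Agent.Helper75.MG.Main

/-!
# MP_5a85b5_lc: the measurable version of Q1 has a positive answer

One finite graph of girth at least 5 receives, from every Borel 3-regular graph without short
cycles (in particular from every Borel 3-regular forest), a Borel map which is a homomorphism on
almost every connected component, for every Borel probability measure.
-/

namespace Pool.Agent.Results.MP_5a85b5_lc.MeasurableGirthFive

open MeasureTheory Pool.Agent.Helper75.MG

/-- There are a number `g` and a finite graph `H` of girth at least `5` such that for every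
Borel 3-regular graph `G` without cycles shorter than `g` (for example a forest) on a standard
Borel space `X` and every Borel probability measure `μ` on `X` there is a map `f : X → V(H)` with
Borel classes which for `μ`-almost all `x` is a homomorphism on the connected component of
`x`. -/
theorem result :
    ∃ (g : ℕ) (V : Type) (_ : Finite V) (H : SimpleGraph V), (5 : ℕ∞) ≤ H.egirth ∧
      ∀ (X : Type) [MeasurableSpace X] [StandardBorelSpace X] (μ : Measure X)
        [IsProbabilityMeasure μ] (G : SimpleGraph X),
        MeasurableSet {z : X × X | G.Adj z.1 z.2} → (g : ℕ∞) ≤ G.egirth →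
        (∀ x, (G.neighborSet x).ncard = 3) →
        ∃ f : X → V, (∀ v, MeasurableSet (f ⁻¹' {v})) ∧
          ∀ᵐ x ∂μ, ∀ y z, G.Reachable x y → G.Adj y z → H.Adj (f y) (f z) := by
  obtain ⟨ρ, hρ⟩ : ∃ ρ : ℕ, ρ = 72 * 4 ^ 7 + 5 := ⟨_, rfl⟩
  obtain ⟨B, hB⟩ : ∃ B : ℕ, B = (3 * ρ + 3) * 5 := ⟨_, rfl⟩
  obtain ⟨N, hN⟩ : ∃ N : ℕ, N = 4 ^ (2 * B + 4) + 1 := ⟨_, rfl⟩
  exact ⟨2 * B + 5, _, finite_tm N (B + 1), HN N (B + 1), egirth_HN N (B + 1),
    fun X _ _ μ _ G hG hg h3 => main_borel hρ hB hN μ G hG hg h3⟩

end Pool.Agent.Results.MP_5a85b5_lc.MeasurableGirthFive
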