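import Pool.Agent.Helper70.C4.Space
import Pool.Agent.Helper70.C4.UnivSpace

/-!
# MP_5a85b5_lc: the continuous version of Q1 has a negative answer

One compact metrizable zero-dimensional 3-regular forest (given by three continuous involutions)
has no continuous homomorphism to any graph without 4-cycles.
-/

namespace Pool.Agent.Results.MP_5a85b5_lc.NoContinuousHom

open Pool.Agent.Helper70.C4

/-- a graph without cycles of length four is `C4Free` -/
lemma c4Free_of_no_cycle {V : Type*} (H : SimpleGraph V)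
    (hH : ∀ (v : V) (c : H.Walk v v), c.IsCycle → c.length ≠ 4) : C4Free H := by
  intro a b c d hab hac hbc had hbd
  by_contra hcd
  refine hH a (.cons hac (.cons hbc.symm (.cons hbd (.cons had.symm .nil)))) ?_ rfl
  have h1 := hac.ne
  have h2 := hbc.ne
  have h3 := had.ne
  have h4 := hbd.ne
  rw [SimpleGraph.Walk.cons_isCycle_iff]
  constructor
  · rw [SimpleGraph.Walk.isPath_def]
    simp
    tauto
  · simp
    tauto

/-- There is a compact metrizable zero-dimensional space with three continuous involutions whose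
graph is a 3-regular forest and which has no continuous homomorphism to any graph (finite or
infinite, with the discrete topology) without cycles of length four. -/
theorem result.{u} :
    ∃ (X : Type) (_ : TopologicalSpace X) (_ : CompactSpace X) (_ : T2Space X)
      (_ : TotallyDisconnectedSpace X) (_ : SecondCountableTopology X)
      (τ : Fin 3 → (X ≃ₜ X)) (F : SimpleGraph X),
      (∀ i x, τ i (τ i x) = x) ∧ (∀ x y, F.Adj x y ↔ ∃ i, τ i x = y) ∧
      F.IsAcyclic ∧ (∀ x, (F.neighborSet x).ncard = 3) ∧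
      ∀ (V : Type u) (H : SimpleGraph V),
        (∀ (v : V) (c : H.Walk v v), c.IsCycle → c.length ≠ 4) →
        ¬ ∃ f : X → V, (∀ v, IsOpen (f ⁻¹' {v})) ∧ ∀ x y, F.Adj x y → H.Adj (f x) (f y) := by
  refine ⟨ZZ, inferInstance, inferInstance, inferInstance, inferInstance, inferInstance,
    tzHomeo, gr tz_tz free_tz, fun i x => tz_tz i x, fun x y => Iff.rfl,
    gr_acyclic tz_tz free_tz, gr_regular tz_tz free_tz, ?_⟩
  rintro V H hH ⟨f, hf, hhom⟩
  classical
  -- the range of `f` is finite
  have hfin : (Set.range f).Finite := by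
    obtain ⟨s, hs⟩ := isCompact_univ.elim_finite_subcover (fun v => f ⁻¹' {v}) hf
      (fun x _ => Set.mem_iUnion.2 ⟨f x, rfl⟩)
    refine s.finite_toSet.subset ?_
    rintro _ ⟨x, rfl⟩
    obtain ⟨v, hv, hx⟩ := Set.mem_iUnion₂.1 (hs (Set.mem_univ x))
    have : f x = v := hx
    rw [this]
    exact hv
  have hFt : Fintype (Set.range f) := hfin.fintype
  set m := Fintype.card (Set.range f) + 3 with hm
  obtain ⟨k, hk⟩ : ∃ k : ℕ, m + 6 < 2 ^ k := ⟨m + 6, Nat.lt_two_pow_self⟩
  have hk0 : k ≠ 0 := by
    rintro rfl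
    simp at hk
  have hkn : Nonempty (Fin k) := ⟨⟨0, Nat.pos_of_ne_zero hk0⟩⟩
  have hA2 : ∀ a : Fin k → ZMod 2, a + a = 0 := by
    intro a
    funext i
    exact CharTwo.add_self_eq_zero (a i)
  have hcard : m + 6 < Fintype.card (Fin k → ZMod 2) := by
    simpa using hk
  obtain ⟨X, tX, cX, hX, dX, τ, hτ, hF, hno⟩ :=
    main_aux.{u} (Fin k → ZMod 2) hA2 (m := m) (by omega) hcard
  obtain ⟨Φ, hΦ, hΦτ⟩ := exists_map τ hτ hF
  -- the induced graph on the range
  let H' : SimpleGraph (Set.range f) := H.induce (Set.range f)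
  have hH' : C4Free H' := by
    intro a b c d hab h1 h2 h3 h4
    have := c4Free_of_no_cycle H hH (a := a.1) (b := b.1) (c := c.1) (d := d.1)
      (fun e => hab (Subtype.ext e)) h1 h2 h3 h4
    exact Subtype.ext this
  have hcol : H'.Colorable m := by
    have h1 : H'.Colorable (Fintype.card (Set.range f)) := H'.colorable_of_fintype
    exact h1.mono (by omega)
  refine hno hH' hcol (fun x => ⟨f (Φ x), Φ x, rfl⟩) ?_ ?_
  · rintro ⟨v, hv⟩
    have : (fun x => (⟨f (Φ x), Φ x, rfl⟩ : Set.range f)) ⁻¹' {⟨v, hv⟩} = Φ ⁻¹' (f ⁻¹' {v}) := by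
      ext x
      simp
    rw [this]
    exact (hf v).preimage hΦ
  · intro i x
    show H.Adj (f (Φ x)) (f (Φ (τ i x)))
    rw [hΦτ]
    exact hhom _ _ ⟨i, rfl⟩

end Pool.Agent.Results.MP_5a85b5_lc.NoContinuousHom
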